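import Pool.Agent.LibTk83.Main

/-!
It is consistent with ZFC that the high spectrum of the Tukey types of ultrafilters on `ω` is
countably infinite: this sentence holds, with truth value `⊤`, in the Boolean-valued universe `V^B`
for a nontrivial complete Boolean algebra `B`.
-/

namespace Pool.Agent.Results.MP_b334b6_lc.CountablyInfinite

open Pool.Agent.LibTk83

theorem result : ∃ (B : Type) (_ : CompleteBooleanAlgebra B) (_ : Nontrivial B),
    spectrumSentence B = ⊤ :=
  main

end Pool.Agent.Results.MP_b334b6_lc.CountablyInfinite
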